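import Mathlib
import Pool.Agent.V5helper5.AI.Lat3

/-!
# Boyd's conjecture for polynomials with an almost interlacing companion and for isometries of integral lattices
with few negative squares

`interlacedMeasures κ` is the set of the Mahler measures `x = M(F)` of the integer polynomials `F` in one variable
(of any degree) having an integer companion `N ≠ 0`, without common zeros outside the closed unit disc, such that
`M(N) ≤ κ x` and, for some complex numbers `a`, `b` of modulus at most one, on the unit circle
`max(|F|, |N|) ≤ κ x |a F + b N|`, and the product of `1 / max(|w|, 1/2)` over the zeros `w` of `a F + b N` in the open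
unit disc is at most `κ x` (for instance `a F + b N` has at most `log_2 (κ x)` zeros there). If `F` is reciprocal and `N`
antireciprocal (with respect to the same degree) the condition on the circle holds with `a = b = 1` and `κ = 1`, and the
zeros of `F` and `N` on the unit circle interlace when `F + N` has no zeros in the disc (Hermite-Biehler, Schur-Cohn); so
here they interlace up to a bounded number of exceptions.

`latticeMeasures κ` is the set of the Mahler measures `x` of the isometries `A` of integral lattices of any rank,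
with a nondegenerate symmetric form `S` with at most `κ x` negative squares, such that for some lattice vector `e` of
norm `S(e, e) ≠ 0`, `|S(e, e)| ≤ κ x`, the product `s_e A` with the reflection in `e` (which need not be integral) has
Mahler measure at most `κ x` and no eigenvalue outside the closed unit disc in common with `A`.

`L K` is the set of the Mahler measures of the nonzero integer polynomials `F` (in any number of variables) having a
coprime companion `G` with `∫ log max(|F|, |G|) ≤ K`; a set `T` of reals has bounded companions if for every `B` some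
`L K` contains all elements of `T` below `B`. (The starting files contain this framework and several classes with bounded
companions.)

For every monotone function `κ` the multiplicative monoid generated by `interlacedMeasures κ`, `latticeMeasures κ` and by
any set `T` with bounded companions has bounded companions. Hence its closure consists of Mahler measures, it has a gap
above `1`, and below every bound it has finite Cantor-Bendixson rank.

The starting files treat rational functions `N / F` with positive residues, or with bounded sum of the absolute values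
of the residues. Here boundedly many residues of the wrong sign are allowed, and then the residues may be arbitrarily
large. The new estimate is `M(a F + b N) ≤ 8 C² W³ max(M(F), M(N))`, `W` being the product above and `C = κ x`
(`Pool.Agent.V5helper5.AI.key`, by the Poisson formula at a suitable point of the circle of radius `1/2`, where the
Blaschke product of the inner zeros is not small). For lattices, `-F/2 + N` (`F`, `N` the suitably normalised
characteristic polynomials of `A` and `s_e A`) is a multiple of the characteristic polynomial of a matrix which expands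
the form `S`, so it has at most as many zeros in the open unit disc as `S` has negative squares.
-/

set_option autoImplicit false

namespace Pool.Agent.Results.MP_6d22ea_nt.AlmostInterlacing

open Polynomial Matrix

noncomputable section

/-- Value of an integer polynomial in `k` variables at the torus point
`(exp (2 π i t_1), …, exp (2 π i t_k))`. -/
def value {k : ℕ} (F : MvPolynomial (Fin k) ℤ) (t : Fin k → ℝ) : ℂ :=
  MvPolynomial.eval (fun j : Fin k => Complex.exp (2 * (Real.pi : ℂ) * Complex.I * ((t j : ℝ) : ℂ)))
    (MvPolynomial.map (Int.castRingHom ℂ) F)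

/-- The Mahler measure of an integer polynomial in `k` variables. -/
def mahler {k : ℕ} (F : MvPolynomial (Fin k) ℤ) : ℝ :=
  Real.exp (∫ t in Set.Icc (0 : Fin k → ℝ) 1, Real.log ‖value F t‖)

/-- The integral of `log max(|F|, |G|)` over the torus. -/
def pairHeight {k : ℕ} (F G : MvPolynomial (Fin k) ℤ) : ℝ :=
  ∫ t in Set.Icc (0 : Fin k → ℝ) 1, Real.log (max ‖value F t‖ ‖value G t‖)

/-- The set of the Mahler measures of the nonzero integer polynomials in any number of variables. -/
def allMeasures : Set ℝ :=
  {x : ℝ | ∃ k : ℕ, 1 ≤ k ∧ ∃ F : MvPolynomial (Fin k) ℤ, F ≠ 0 ∧ x = mahler F}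

/-- The Mahler measures of the nonzero polynomials `F` having a coprime companion `G ≠ 0` with
`∫ log max(|F|, |G|) ≤ K`. -/
def L (K : ℝ) : Set ℝ :=
  {x : ℝ | ∃ k : ℕ, 1 ≤ k ∧ ∃ F G : MvPolynomial (Fin k) ℤ, F ≠ 0 ∧ G ≠ 0 ∧ IsRelPrime F G ∧
    pairHeight F G ≤ K ∧ x = mahler F}

/-- For every `B` some `L K` contains all elements of `T` below `B`. -/
def BoundedCompanions (T : Set ℝ) : Prop := ∀ B : ℝ, ∃ K : ℝ, T ∩ Set.Iio B ⊆ L K

/-- the product of `1 / max(|w|, 1/2)` over the complex zeros `w` of `P` (with multiplicity) with `|w| < 1` -/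
def innerWeight (P : ℂ[X]) : ℝ :=
  ((P.roots.filter (fun w => ‖w‖ < 1)).map (fun w => (max ‖w‖ (1/2))⁻¹)).prod

/-- The measures `x` of the integer polynomials `F` with an almost interlacing companion `N`. -/
def interlacedMeasures (κ : ℝ → ℝ) : Set ℝ :=
  {x : ℝ | ∃ (F N : ℤ[X]) (a b : ℂ), F ≠ 0 ∧ N ≠ 0 ∧ ‖a‖ ≤ 1 ∧ ‖b‖ ≤ 1 ∧
    (∀ z : ℂ, ‖z‖ = 1 → max ‖aeval z F‖ ‖aeval z N‖ ≤ κ x * ‖a * aeval z F + b * aeval z N‖) ∧
    innerWeight (C a * F.map (Int.castRingHom ℂ) + C b * N.map (Int.castRingHom ℂ)) ≤ κ x ∧
    (N.map (Int.castRingHom ℂ)).mahlerMeasure ≤ κ x ∧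
    (∀ z : ℂ, 1 < ‖z‖ → aeval z F ≠ 0 ∨ aeval z N ≠ 0) ∧
    x = (F.map (Int.castRingHom ℂ)).mahlerMeasure}

/-- the complex matrix with the entries of an integer matrix -/
def cmat {n : ℕ} (S : Matrix (Fin n) (Fin n) ℤ) : Matrix (Fin n) (Fin n) ℂ := S.map (Int.castRingHom ℂ)

/-- the norm `eᵀ S e` of the vector `e` -/
def norm' {n : ℕ} (S : Matrix (Fin n) (Fin n) ℤ) (e : Fin n → ℤ) : ℤ := e ⬝ᵥ (S *ᵥ e)

/-- the number of complex eigenvalues with negative real part of an integer matrix, with multiplicity; for a
symmetric matrix all eigenvalues are real and this is the number of negative squares of the form -/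
def negativeSquares {n : ℕ} (S : Matrix (Fin n) (Fin n) ℤ) : ℕ :=
  ((cmat S).charpoly.roots.filter (fun z => z.re < 0)).card

/-- the matrix of `s_e A`, where `s_e x = x - 2 (eᵀ S x) / (eᵀ S e) e` is the reflection in `e` -/
def reflected {n : ℕ} (S A : Matrix (Fin n) (Fin n) ℤ) (e : Fin n → ℤ) : Matrix (Fin n) (Fin n) ℂ :=
  (1 - (2 / (norm' S e : ℂ)) • vecMulVec (fun i => (e i : ℂ)) ((fun i => (e i : ℂ)) ᵥ* cmat S)) * cmat A

/-- The measures `x` of the isometries `A` of integral lattices with few negative squares. -/
def latticeMeasures (κ : ℝ → ℝ) : Set ℝ :=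
  {x : ℝ | ∃ (n : ℕ) (S A : Matrix (Fin n) (Fin n) ℤ) (e : Fin n → ℤ),
    S.IsSymm ∧ S.det ≠ 0 ∧ Aᵀ * S * A = S ∧ (negativeSquares S : ℝ) ≤ κ x ∧ norm' S e ≠ 0 ∧
    |(norm' S e : ℝ)| ≤ κ x ∧ (reflected S A e).charpoly.mahlerMeasure ≤ κ x ∧
    (∀ z : ℂ, 1 < ‖z‖ → (cmat A).charpoly.eval z ≠ 0 ∨ (reflected S A e).charpoly.eval z ≠ 0) ∧
    x = (cmat A).charpoly.mahlerMeasure}

theorem result (κ : ℝ → ℝ) (hκ : Monotone κ) (T : Set ℝ) (hT : BoundedCompanions T) :
    BoundedCompanions
        (Submonoid.closure (T ∪ (interlacedMeasures κ ∪ latticeMeasures κ)) : Submonoid ℝ) ∧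
      closure ((Submonoid.closure (T ∪ (interlacedMeasures κ ∪ latticeMeasures κ)) : Submonoid ℝ) :
        Set ℝ) ⊆ allMeasures ∧
      (∃ δ : ℝ, 1 < δ ∧
        ∀ x ∈ (Submonoid.closure (T ∪ (interlacedMeasures κ ∪ latticeMeasures κ)) : Submonoid ℝ),
          x = 1 ∨ δ ≤ x) ∧
      ∀ B : ℝ, ∃ m : ℕ, ∀ x ∈ derivedSet^[m]
        ((Submonoid.closure (T ∪ (interlacedMeasures κ ∪ latticeMeasures κ)) : Submonoid ℝ) : Set ℝ),
          B ≤ x := by
  have hB1 : Pool.Agent.TH845.KN.BC (interlacedMeasures κ) := Pool.Agent.V5helper5.AI.BC_AIM hκ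
  have hB2 : Pool.Agent.TH845.KN.BC (latticeMeasures κ) := by
    intro B
    obtain ⟨K, hK⟩ := Pool.Agent.V5helper5.AI.BC_AIM (Pool.Agent.V5helper5.AI.kap_mono hκ) B
    refine ⟨K, fun x hx => hK ⟨Pool.Agent.V5helper5.AI.LatM_sub κ hx.1, hx.2⟩⟩
  have h1 : Pool.Agent.TH845.KN.BC
      ((Submonoid.closure (T ∪ (interlacedMeasures κ ∪ latticeMeasures κ)) : Submonoid ℝ) : Set ℝ) :=
    Pool.Agent.TH845.KN.BC_monoid
      (Pool.Agent.TH845.KN.BC.union hT (Pool.Agent.TH845.KN.BC.union hB1 hB2))
  obtain ⟨h2, h3⟩ := Pool.Agent.W242.IM.closure_of_LL _ h1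
  exact ⟨h1, h2, Pool.Agent.TH845.KN.gap_BC h1, h3⟩

end

end Pool.Agent.Results.MP_6d22ea_nt.AlmostInterlacing
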