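import Mathlib
import Pool.Agent.V5helper58.GD.A4
import Pool.Agent.V5helper58.GD.E
import Pool.Agent.TH845.KN.B2
import Pool.Agent.W242.IM.Final2

/-!
# Dominating polynomials, Gram determinants, spanning trees of periodic graphs and Boyd's conjecture

Call an integer polynomial `Q` harmless if it is constant, or has Mahler measure one, or is not self-reciprocal.
The nonreciprocal Mahler measures are those of the polynomials with harmless irreducible divisors.

(1) The nonreciprocal Mahler measures are exactly the Mahler measures of the polynomials `F` (reciprocal or not) which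
dominate some polynomials `G_1, …, G_N`, `∑ |G_j| ≤ |F|` on the torus, such that each irreducible common divisor of `F`
and all `G_j` is harmless.

(2) For each monotone function `κ` the measures `x` of the polynomials `F` with such `G_j`, `∑ |G_j| ≤ κ(x) |F|`, have
bounded companions.  Hence the monoid which they generate together with any other class with bounded companions has
bounded companions, its closure consists of Mahler measures of integer polynomials, it has a gap above `1` and locally
finite Cantor-Bendixson rank.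

(3) For a matrix `B` over `ℤ[z_1, …, z_k]` let `gramMeasure B = exp ∫ log det (B(t) B(t)^*) dt`, the integral over the
torus; this is the square of the Fuglede-Kadison determinant of `B`.  If the maximal minors of `B` are not all zero and
have only harmless irreducible common divisors (for square matrices: if `det B` is not zero and has no other irreducible
divisors) then this number and all limits of such numbers are nonreciprocal measures.  (It is the Mahler measure of the
reciprocal polynomial `det (B B^*) = ∑ |m_j|²`, `m_j` the maximal minors, which dominates the `m_j²`.)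

(4) If each common divisor of the maximal minors has measure one the number is equal to `1` or at least `2`, and so are
the limits of such numbers.

(5) The incidence matrices of the `ℤ^k`-periodic graphs (all `k`) with finite connected quotient graph are of the kind
in (4), unless the maximal minors are zero: here `B B^*` is the Laplacian, and `log gramMeasure B` is the growth rate of
the number of spanning trees of the finite quotients of the periodic graph (this interpretation is not used).  So each
limit of such growth rates is the logarithm of the Mahler measure of a nonreciprocal integer polynomial.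
-/

set_option autoImplicit false

namespace Pool.Agent.Results.MP_6d22ea_nt.GramDeterminants

open Matrix

noncomputable section

/-- Value of an integer polynomial in `k` variables at the torus point
`(exp (2 π i t_1), …, exp (2 π i t_k))`. -/
def value {k : ℕ} (F : MvPolynomial (Fin k) ℤ) (t : Fin k → ℝ) : ℂ :=
  MvPolynomial.eval (fun j : Fin k => Complex.exp (2 * (Real.pi : ℂ) * Complex.I * ((t j : ℝ) : ℂ)))
    (MvPolynomial.map (Int.castRingHom ℂ) F)

/-- The Mahler measure of an integer polynomial in `k` variables. -/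
def mahler {k : ℕ} (F : MvPolynomial (Fin k) ℤ) : ℝ :=
  Real.exp (∫ t in Set.Icc (0 : Fin k → ℝ) 1, Real.log ‖value F t‖)

/-- The reciprocal polynomial `z_1^{d_1} ⋯ z_k^{d_k} F(1/z_1, …, 1/z_k)`, where `d_i` is the degree
of `F` in `z_i`. -/
def reciprocal {k : ℕ} (F : MvPolynomial (Fin k) ℤ) : MvPolynomial (Fin k) ℤ :=
  ∑ s ∈ F.support, MvPolynomial.monomial
    (Finsupp.equivFunOnFinite.symm fun i => F.degreeOf i - s i) (F.coeff s)

/-- Constant, or of Mahler measure one, or not self-reciprocal. -/
def Harmless {k : ℕ} (Q : MvPolynomial (Fin k) ℤ) : Prop :=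
  Q.totalDegree = 0 ∨ mahler Q = 1 ∨ ¬ Associated (reciprocal Q) Q

/-- The Mahler measures of the polynomials without nonconstant self-reciprocal irreducible factor
of Mahler measure greater than one. -/
def nonreciprocal : Set ℝ :=
  {x : ℝ | ∃ k : ℕ, 1 ≤ k ∧ ∃ F : MvPolynomial (Fin k) ℤ, F ≠ 0 ∧
    (∀ Q : MvPolynomial (Fin k) ℤ, Irreducible Q → Q ∣ F → Harmless Q) ∧ x = mahler F}

/-- The integral of `log max(|F|, |G|)` over the torus. -/
def pairHeight {k : ℕ} (F G : MvPolynomial (Fin k) ℤ) : ℝ :=
  ∫ t in Set.Icc (0 : Fin k → ℝ) 1, Real.log (max ‖value F t‖ ‖value G t‖)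

/-- The set of the Mahler measures of the nonzero integer polynomials in any number of variables. -/
def allMeasures : Set ℝ :=
  {x : ℝ | ∃ k : ℕ, 1 ≤ k ∧ ∃ F : MvPolynomial (Fin k) ℤ, F ≠ 0 ∧ x = mahler F}

/-- The Mahler measures of the nonzero polynomials `F` having a coprime companion `G ≠ 0` with
`∫ log max(|F|, |G|) ≤ K`. -/
def L (K : ℝ) : Set ℝ :=
  {x : ℝ | ∃ k : ℕ, 1 ≤ k ∧ ∃ F G : MvPolynomial (Fin k) ℤ, F ≠ 0 ∧ G ≠ 0 ∧ IsRelPrime F G ∧
    pairHeight F G ≤ K ∧ x = mahler F}

/-- For every `B` some `L K` contains all elements of `T` below `B`. -/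
def BoundedCompanions (T : Set ℝ) : Prop := ∀ B : ℝ, ∃ K : ℝ, T ∩ Set.Iio B ⊆ L K

/-- The measures `x` of the polynomials `F` which dominate, up to the factor `κ x`, polynomials `G_1, …, G_N` such
that each irreducible common divisor of `F, G_1, …, G_N` is harmless. -/
def dominating (κ : ℝ → ℝ) : Set ℝ :=
  {x : ℝ | ∃ (k N : ℕ) (F : MvPolynomial (Fin k) ℤ) (G : Fin N → MvPolynomial (Fin k) ℤ), F ≠ 0 ∧
    (∀ t, ∑ j, ‖value (G j) t‖ ≤ κ x * ‖value F t‖) ∧
    (∀ Q, Irreducible Q → Q ∣ F → (∀ j, Q ∣ G j) → Harmless Q) ∧ x = mahler F}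

/-- The matrix of the values at a torus point. -/
def valueMatrix {k n m : ℕ} (B : Matrix (Fin n) (Fin m) (MvPolynomial (Fin k) ℤ)) (t : Fin k → ℝ) :
    Matrix (Fin n) (Fin m) ℂ := B.map fun P => value P t

/-- `exp ∫ log det (B(t) B(t)^*)`, the square of the Fuglede-Kadison determinant of `B`. -/
def gramMeasure {k n m : ℕ} (B : Matrix (Fin n) (Fin m) (MvPolynomial (Fin k) ℤ)) : ℝ :=
  Real.exp (∫ t in Set.Icc (0 : Fin k → ℝ) 1,
    Real.log ‖(valueMatrix B t * (valueMatrix B t)ᴴ).det‖)

/-- The numbers `gramMeasure B` of the matrices whose maximal minors are not all zero and have only harmless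
irreducible common divisors. -/
def gramMeasures : Set ℝ :=
  {x : ℝ | ∃ (k n m : ℕ) (B : Matrix (Fin n) (Fin m) (MvPolynomial (Fin k) ℤ)),
    (∃ a : Fin n → Fin m, (B.submatrix id a).det ≠ 0) ∧
    (∀ Q, Irreducible Q → (∀ a : Fin n → Fin m, Q ∣ (B.submatrix id a).det) → Harmless Q) ∧
    x = gramMeasure B}

/-- The numbers `gramMeasure B` of the matrices whose maximal minors are not all zero and have only common divisors
of measure one. -/
def coprimeGramMeasures : Set ℝ :=
  {x : ℝ | ∃ (k n m : ℕ) (B : Matrix (Fin n) (Fin m) (MvPolynomial (Fin k) ℤ)),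
    (∃ a : Fin n → Fin m, (B.submatrix id a).det ≠ 0) ∧
    (∀ D, (∀ a : Fin n → Fin m, D ∣ (B.submatrix id a).det) → mahler D = 1) ∧
    x = gramMeasure B}

/-- The incidence matrix of the periodic graph with the vertex orbits `Fin (N + 1)` and the edge orbits `Fin m`: the
edge `e` joins the vertices `z^(s e) (a e)` and `z^(t e) (b e)`.  Its column is the difference of these vertices. -/
def incidence {k N m : ℕ} (a b : Fin m → Fin (N + 1)) (s t : Fin m → (Fin k →₀ ℕ)) :
    Matrix (Fin (N + 1)) (Fin m) (MvPolynomial (Fin k) ℤ) :=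
  Matrix.of fun i e => (if i = a e then MvPolynomial.monomial (s e) 1 else 0) -
    (if i = b e then MvPolynomial.monomial (t e) 1 else 0)

/-- The numbers `exp ∫ log det Δ(t)`, `Δ = B B^*` the Laplacian with determinant not identically zero, of the periodic
graphs with finite connected quotient graph (its vertices are numbered so that each one but the first is joined to a
smaller one). -/
def treeMeasures : Set ℝ :=
  {x : ℝ | ∃ (k N m : ℕ) (a b : Fin m → Fin (N + 1)) (s t : Fin m → (Fin k →₀ ℕ)),
    (∀ i : Fin (N + 1), i ≠ 0 → ∃ e, (a e = i ∧ b e < i) ∨ (b e = i ∧ a e < i)) ∧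
    (∃ y, (valueMatrix (incidence a b s t) y * (valueMatrix (incidence a b s t) y)ᴴ).det ≠ 0) ∧
    x = gramMeasure (incidence a b s t)}

theorem mn_ne {k n m : ℕ} {B : Matrix (Fin n) (Fin m) (MvPolynomial (Fin k) ℤ)}
    (h : ∃ a : Fin n → Fin m, (B.submatrix id a).det ≠ 0) :
    ∃ b, Pool.Agent.V5helper58.GD.mn B b ≠ 0 := by
  obtain ⟨a, ha⟩ := h
  obtain ⟨b, hb⟩ := Pool.Agent.V5helper58.GD.exists_mn B a ha
  exact ⟨b, fun h0 => ha (hb.eq_zero_iff.1 h0)⟩

theorem mn_dvd {k n m : ℕ} {B : Matrix (Fin n) (Fin m) (MvPolynomial (Fin k) ℤ)}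
    {D : MvPolynomial (Fin k) ℤ} (hD : ∀ b, D ∣ Pool.Agent.V5helper58.GD.mn B b)
    (a : Fin n → Fin m) : D ∣ (B.submatrix id a).det := by
  by_cases ha : (B.submatrix id a).det = 0
  · rw [ha]
    exact dvd_zero D
  · obtain ⟨b, hb⟩ := Pool.Agent.V5helper58.GD.exists_mn B a ha
    exact (hD b).trans hb.dvd

theorem gramMeasure_eq {k n m : ℕ} (B : Matrix (Fin n) (Fin m) (MvPolynomial (Fin k) ℤ)) :
    gramMeasure B = Pool.Agent.H261R2.CM.mM
      (Pool.Agent.V5helper58.GD.gramP (Pool.Agent.V5helper58.GD.mn B)) :=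
  Pool.Agent.V5helper58.GD.gram_eq B

theorem nonreciprocal_eq : nonreciprocal = Pool.Agent.H887R3.LW.NR := rfl

theorem closed_nonreciprocal : IsClosed nonreciprocal := Pool.Agent.H261R2.CM.closed_nonrecip

theorem gram_sub : gramMeasures ⊆ nonreciprocal := by
  rintro x ⟨k, n, m, B, h1, h2, rfl⟩
  rw [gramMeasure_eq, nonreciprocal_eq]
  exact Pool.Agent.V5helper58.GD.gram_NR' _ (mn_ne h1) fun Q hQ h => h2 Q hQ (mn_dvd h)

theorem coprime_gap : ∀ x ∈ coprimeGramMeasures, x = 1 ∨ 2 ≤ x := by
  rintro x ⟨k, n, m, B, h1, h2, rfl⟩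
  rw [gramMeasure_eq]
  exact Pool.Agent.V5helper58.GD.gram_gap _ (mn_ne h1) fun Q _ h => h2 Q (mn_dvd h)

theorem result :
    -- (1) nonreciprocal measures and domination
    nonreciprocal = dominating (fun _ => 1) ∧
    -- (2) domination up to a factor bounded in terms of the measure
    (∀ κ : ℝ → ℝ, Monotone κ → BoundedCompanions (dominating κ) ∧
      ∀ T : Set ℝ, BoundedCompanions T → ∃ M : Submonoid ℝ,
        M = Submonoid.closure (T ∪ dominating κ) ∧ BoundedCompanions (M : Set ℝ) ∧
        closure (M : Set ℝ) ⊆ allMeasures ∧ (∃ δ : ℝ, 1 < δ ∧ ∀ x ∈ M, x = 1 ∨ δ ≤ x) ∧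
        ∀ B : ℝ, ∃ s : ℕ, ∀ x ∈ derivedSet^[s] (M : Set ℝ), B ≤ x) ∧
    -- (3) Gram determinants
    closure gramMeasures ⊆ nonreciprocal ∧
    -- (4) Gram determinants with nearly coprime maximal minors
    coprimeGramMeasures ⊆ gramMeasures ∧ (∀ x ∈ closure coprimeGramMeasures, x = 1 ∨ 2 ≤ x) ∧
    -- (5) Laplacians of periodic graphs
    treeMeasures ⊆ coprimeGramMeasures := by
  refine ⟨?_, ?_, ?_, ?_, ?_, ?_⟩
  · rw [nonreciprocal_eq, Pool.Agent.V5helper58.GD.NR_eq_DM']
    rfl
  · intro κ hκ
    have b3 : BoundedCompanions (dominating κ) := Pool.Agent.V5helper58.GD.DM'_LL hκ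
    refine ⟨b3, fun T hT => ?_⟩
    have h1 : Pool.Agent.TH845.KN.BC
        ((Submonoid.closure (T ∪ dominating κ) : Submonoid ℝ) : Set ℝ) :=
      Pool.Agent.TH845.KN.BC_monoid (Pool.Agent.TH845.KN.BC.union hT b3)
    obtain ⟨h2, h3⟩ := Pool.Agent.W242.IM.closure_of_LL _ h1
    exact ⟨_, rfl, h1, h2, Pool.Agent.TH845.KN.gap_BC h1, h3⟩
  · exact closed_nonreciprocal.closure_subset_iff.2 gram_sub
  · rintro x ⟨k, n, m, B, h1, h2, rfl⟩
    exact ⟨k, n, m, B, h1, fun Q _ h => Or.inr (Or.inl (h2 Q h)), rfl⟩
  · have hcl : IsClosed {x : ℝ | x = 1 ∨ 2 ≤ x} :=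
      (isClosed_singleton (x := (1 : ℝ))).union (isClosed_Ici (a := (2 : ℝ)))
    exact hcl.closure_subset_iff.2 coprime_gap
  · rintro x ⟨k, N, m, a, b, s, t, hab, ⟨y, hy⟩, rfl⟩
    have hne : ∃ σ : Fin (N + 1) → Fin m, ((incidence a b s t).submatrix id σ).det ≠ 0 := by
      by_contra hno
      push Not at hno
      apply hy
      rw [← norm_eq_zero]
      have h3 := Pool.Agent.V5helper58.GD.det_mv (incidence a b s t) y
      have h4 : Pool.Agent.V5helper58.GD.gramP
          (Pool.Agent.V5helper58.GD.mn (incidence a b s t)) = 0 := by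
        unfold Pool.Agent.V5helper58.GD.gramP
        refine Finset.sum_eq_zero fun j _ => ?_
        have : Pool.Agent.V5helper58.GD.mn (incidence a b s t) j = 0 := hno j.1
        rw [this, zero_mul]
      rw [h4, Pool.Agent.V5helper58.GD.tv_zero, norm_zero] at h3
      exact h3
    exact ⟨k, N + 1, m, incidence a b s t, hne,
      fun D hD => Pool.Agent.V5helper58.GD.graph_gcd hab hne D hD, rfl⟩

end

end Pool.Agent.Results.MP_6d22ea_nt.GramDeterminants
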