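import Pool.Agent.V5helper2.HR.Alg

/-!
# Boyd's conjecture for spectral radii of hyperbolic reflection groups

Let `S` be a symmetric integer matrix, of any size `n`, of signature `(1, n - 1)`, and write `(x, y)`
for the form. The reflection in an integer vector `r` with `(r, r) < 0` is the map
`x ↦ x - 2 (x, r) / (r, r) r`; we consider only reflections which map integer vectors to integer
vectors, and only vectors with `-(r, r) ≤ κ(x)`, where `κ` is a monotone function which is given once
and for all, and `x` is the spectral radius of the product of the reflections which we consider (for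
example a constant; for `κ = 2` and even forms these are the reflections in roots). Let `R` be the set
of the spectral radii of all the products of such reflections, for all `n` and `S`: for example the
spectral radii of the elements of the Weyl groups of all hyperbolic Kac-Moody algebras and of all the
Coxeter groups of type `E_n`, `T_{p,q,r}`, and the dynamical degrees of automorphisms of rational
surfaces which act as elements of the Weyl group.

(1) The set `R` has bounded companions: for every `B` the elements of `R` below `B` are Mahler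
measures of polynomials having a coprime companion of bounded height.
(2) Hence the closure of the monoid generated by `R` and by any other class with bounded companions
consists of Mahler measures of integer polynomials in several variables, it has a gap above `1`, and
below every bound it has finite Cantor-Bendixson rank.
(3) Every element of the closure of `R`, except `1`, is a Pisot number or a Salem number, as
predicted by another conjecture of Boyd.

Proof. Let `A` be a product of reflections with spectral radius `x > 1`. Then `A` or `-A` has the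
eigenvalue `x`, and `A` has an axis `g` in hyperbolic space (`HR/Eig.lean`). The reflections in the
roots `r` with `-(r, r) ≤ κ(x)` are a discrete set; the group acts freely on the chambers
(`HR/Free.lean`, a proof by exchange of the letters of a word), and only finitely many mirrors meet
a compact set. If no mirror would cross the axis then a generic point near the axis could be joined
to its image under a power of `A` without crossing a mirror, which is impossible; so some mirror
crosses the axis (`HR/Cross.lean`), that is, for some root `r` the two fixed points `u`, `u'` of `A` on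
the boundary satisfy `(r, u) (r, u') < 0`. Hence for the operator `T = A + A⁻¹` all coefficients of
`-(r, r)` in the decomposition in eigenvectors of `T` are nonnegative, including the one of the
eigenvalue `±(x + 1/x)`. The sum of these coefficients is `-(r, r) ≤ κ(x)`, and the numbers
`-(r, T^i r)` are integers; so the resolvent of `T` gives a coprime pair of bounded height
(`HR/Core.lean`; this uses the theorem on bounded residues of the starting library, `Y820/LB`).
For (3) one uses in addition that coprime pairs of bounded height have a common multiplier which makes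
them of bounded length, and takes a limit of the rational functions `∑ c_i z^i`, where `c_i` is
`-(r, U_i(T) r)` for the Chebyshev polynomials `U_i` (`HR/Lim.lean`); before, `r` is replaced by
`(A^j + A^{-j}) r` such that the coefficient of the largest eigenvalue is at least `1`. The limit is a
rational function with integer coefficients `c_i`, and the numbers `c_i - x c_{i-1}` are
`O(i)`. Hence `x` is an algebraic integer, and it has no other conjugates outside of the unit disc
(`HR/Alg.lean`).
-/

set_option autoImplicit false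

namespace Pool.Agent.Results.MP_6d22ea_nt.HyperbolicReflectionGroups

open MeasureTheory Polynomial

noncomputable section

/-- Value of an integer polynomial in `k` variables at the torus point
`(exp (2 π i t_1), …, exp (2 π i t_k))`. -/
def value {k : ℕ} (F : MvPolynomial (Fin k) ℤ) (t : Fin k → ℝ) : ℂ :=
  MvPolynomial.eval
    (fun j : Fin k => Complex.exp (2 * (Real.pi : ℂ) * Complex.I * ((t j : ℝ) : ℂ)))
    (MvPolynomial.map (Int.castRingHom ℂ) F)

/-- The Mahler measure of an integer polynomial in `k` variables. -/
def mahler {k : ℕ} (F : MvPolynomial (Fin k) ℤ) : ℝ :=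
  Real.exp (∫ t in Set.Icc (0 : Fin k → ℝ) 1, Real.log ‖value F t‖)

/-- The integral of `log max(|F|, |G|)` over the torus. -/
def pairHeight {k : ℕ} (F G : MvPolynomial (Fin k) ℤ) : ℝ :=
  ∫ t in Set.Icc (0 : Fin k → ℝ) 1, Real.log (max ‖value F t‖ ‖value G t‖)

/-- The set of the Mahler measures of the nonzero integer polynomials in any number of variables. -/
def allMeasures : Set ℝ :=
  {x : ℝ | ∃ k : ℕ, 1 ≤ k ∧ ∃ F : MvPolynomial (Fin k) ℤ, F ≠ 0 ∧ x = mahler F}

/-- The Mahler measures of the nonzero polynomials `F` having a coprime companion `G ≠ 0` with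
`∫ log max(|F|, |G|) ≤ K`. -/
def L (K : ℝ) : Set ℝ :=
  {x : ℝ | ∃ k : ℕ, 1 ≤ k ∧ ∃ F G : MvPolynomial (Fin k) ℤ, F ≠ 0 ∧ G ≠ 0 ∧ IsRelPrime F G ∧
    pairHeight F G ≤ K ∧ x = mahler F}

/-- For every `B` some `L K` contains all elements of `T` below `B`. -/
def BoundedCompanions (T : Set ℝ) : Prop := ∀ B : ℝ, ∃ K : ℝ, T ∩ Set.Iio B ⊆ L K

/-- The form `(x, y) = xᵗ S y` on `ℝ ^ n` of an integer matrix `S`. -/
def form {n : ℕ} (S : Matrix (Fin n) (Fin n) ℤ) (x y : Fin n → ℝ) : ℝ :=
  x ⬝ᵥ (S.map (fun a : ℤ => (a : ℝ))).mulVec y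

/-- `S` is symmetric, of signature `(1, n - 1)`: the form is negative definite on the orthogonal
complement of a vector `p` with `(p, p) > 0`. -/
def IsHyperbolic {n : ℕ} (S : Matrix (Fin n) (Fin n) ℤ) : Prop :=
  S.IsSymm ∧ ∃ p : Fin n → ℝ, 0 < form S p p ∧ ∀ y, y ≠ 0 → form S p y = 0 → form S y y < 0

/-- The integer matrix `R` is the reflection `x ↦ x - 2 (x, r) / (r, r) r` in an integer vector `r`
with `-k ≤ (r, r) < 0`. -/
def IsReflection {n : ℕ} (S : Matrix (Fin n) (Fin n) ℤ) (k : ℝ) (R : Matrix (Fin n) (Fin n) ℤ) :
    Prop :=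
  ∃ r : Fin n → ℤ, -k ≤ ((r ⬝ᵥ S.mulVec r : ℤ) : ℝ) ∧ r ⬝ᵥ S.mulVec r < 0 ∧
    ∀ x : Fin n → ℤ, (r ⬝ᵥ S.mulVec r) • R.mulVec x =
      (r ⬝ᵥ S.mulVec r) • x - (2 * (x ⬝ᵥ S.mulVec r)) • r

/-- `x` is the spectral radius of the integer matrix `A`: the largest absolute value of a complex
eigenvalue. -/
def IsSpectralRadius {n : ℕ} (A : Matrix (Fin n) (Fin n) ℤ) (x : ℝ) : Prop :=
  (∃ z : ℂ, (A.map (Int.castRingHom ℂ)).charpoly.IsRoot z ∧ ‖z‖ = x) ∧
    ∀ z : ℂ, (A.map (Int.castRingHom ℂ)).charpoly.IsRoot z → ‖z‖ ≤ x

/-- The spectral radii `x` of the products of reflections of hyperbolic integral forms, of any rank,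
in integer vectors `r` with `-κ(x) ≤ (r, r) < 0`. -/
def reflectionRadii (κ : ℝ → ℝ) : Set ℝ :=
  {x : ℝ | ∃ (n : ℕ) (S A : Matrix (Fin n) (Fin n) ℤ), IsHyperbolic S ∧
    A ∈ Submonoid.closure {R | IsReflection S (κ x) R} ∧ IsSpectralRadius A x}

/-- `x > 1` is an algebraic integer all of whose other conjugates lie in the closed unit disc, that
is, a Pisot number or a Salem number. -/
def IsPisotOrSalem (x : ℝ) : Prop :=
  1 < x ∧ IsIntegral ℤ x ∧ ∀ y : ℂ, aeval y (minpoly ℚ x) = 0 → y = x ∨ ‖y‖ ≤ 1

theorem sub_Kl (κ : ℝ → ℝ) : reflectionRadii κ ⊆ Pool.Agent.V5helper2.HR.Kl κ ∪ {1} := by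
  rintro x ⟨n, S, A, ⟨hsym, p, hp, hneg⟩, hA, hx⟩
  have hform : ∀ y z, Pool.Agent.V5helper2.HR.bf (Pool.Agent.V5helper2.HR.rm S) y z = form S y z := by
    intro y z
    rw [Pool.Agent.V5helper2.HR.bf_apply]
    rfl
  have hlor : Pool.Agent.V5helper2.HR.Lor
      (Pool.Agent.V5helper2.HR.bf (Pool.Agent.V5helper2.HR.rm S)) := by
    refine ⟨fun y z => ?_, p, by rw [hform]; exact hp, fun y hy h1 => ?_⟩
    · rw [Pool.Agent.V5helper2.HR.bf_apply, Pool.Agent.V5helper2.HR.bf_apply,
        Matrix.dotProduct_mulVec, dotProduct_comm, ← Matrix.mulVec_transpose]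
      have h2 : (Pool.Agent.V5helper2.HR.rm S).transpose = Pool.Agent.V5helper2.HR.rm S := by
        unfold Pool.Agent.V5helper2.HR.rm
        rw [← Matrix.transpose_map, hsym.eq]
      rw [h2]
    · rw [hform] at h1 ⊢
      exact hneg y hy h1
  exact Pool.Agent.V5helper2.HR.refl_mem hlor κ hA hx

theorem BC_refl (κ : ℝ → ℝ) (hκ : Monotone κ) :
    Pool.Agent.TH845.KN.BC (reflectionRadii κ) := by
  intro B
  obtain ⟨K, hK⟩ := Pool.Agent.V5helper2.HR.BC_Kl κ hκ B
  exact ⟨K, fun x hx => hK ⟨sub_Kl κ hx.1, hx.2⟩⟩

theorem result (κ : ℝ → ℝ) (hκ : Monotone κ) :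
    -- (1) bounded companions
    BoundedCompanions (reflectionRadii κ) ∧
    -- (2) the monoid generated by this class and any other class with bounded companions
    (∀ T : Set ℝ, BoundedCompanions T → ∃ M : Submonoid ℝ,
      M = Submonoid.closure (T ∪ reflectionRadii κ) ∧
      BoundedCompanions (M : Set ℝ) ∧ closure (M : Set ℝ) ⊆ allMeasures ∧
      (∃ δ : ℝ, 1 < δ ∧ ∀ x ∈ M, x = 1 ∨ δ ≤ x) ∧
      ∀ B : ℝ, ∃ s : ℕ, ∀ x ∈ derivedSet^[s] (M : Set ℝ), B ≤ x) ∧
    -- (3) the closure consists of `1`, Pisot numbers and Salem numbers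
    ∀ x ∈ closure (reflectionRadii κ), x = 1 ∨ IsPisotOrSalem x := by
  have b3 := BC_refl κ hκ
  refine ⟨b3, ?_, ?_⟩
  · intro T hT
    have h1 : Pool.Agent.TH845.KN.BC
        ((Submonoid.closure (T ∪ reflectionRadii κ) : Submonoid ℝ) : Set ℝ) :=
      Pool.Agent.TH845.KN.BC_monoid (Pool.Agent.TH845.KN.BC.union hT b3)
    obtain ⟨h2, h3⟩ := Pool.Agent.W242.IM.closure_of_LL _ h1
    exact ⟨_, rfl, h1, h2, Pool.Agent.TH845.KN.gap_BC h1, h3⟩
  · intro x hx
    have h1 : x ∈ closure (Pool.Agent.V5helper2.HR.Kl κ ∪ {1}) := closure_mono (sub_Kl κ) hx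
    rw [closure_union, closure_singleton] at h1
    rcases h1 with h1 | h1
    · have h2 : closure (Pool.Agent.V5helper2.HR.Kl κ) ⊆ Set.Ici 1 := by
        refine closure_minimal (fun y hy => ?_) isClosed_Ici
        exact le_of_lt hy.1
      rcases (show (1 : ℝ) ≤ x from h2 h1).eq_or_lt with h3 | h3
      · exact Or.inl h3.symm
      · have h4 := Pool.Agent.V5helper2.HR.Kl_limit hκ h1 h3
        exact Or.inr ⟨h3, h4.integral h3, h4.conj h3⟩
    · exact Or.inl h1

end

end Pool.Agent.Results.MP_6d22ea_nt.HyperbolicReflectionGroups
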