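import Pool.Agent.V5helper2.HR.Alg
import Pool.Agent.V5helper2.HR.Disp

/-!
# Boyd's conjecture for isometries of hyperbolic lattices with small displacement

Let `S` be a symmetric integer matrix, of any size `n`, of signature `(1, n - 1)`, and write `(x, y)`
for the form. Let `A` be an isometry of the lattice `ℤ ^ n` with spectral radius `x`, and suppose that
some lattice vector `v ≠ 0` with `(v, v) ≥ 0` is not moved much: `|(v, A v)| ≤ (v, v) + κ(x)`, where
`κ` is a monotone function which is given once and for all. (If `(v, v) = 1` then `(v, A v)` is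
the hyperbolic cosine of the displacement of the point `v`; there is no condition on `(v, v)`, on the
rank and on the determinant.) More generally `(v, v)` may be negative if
`(v, A ^ (2 m) v) > |(v, v)|` for some `m`. For example `A` may be the action of an automorphism `f` of
a projective surface on the Neron-Severi group, where `v` is the class of an ample divisor `h`, of a
fibre, or of a curve: then `x` is the dynamical degree `λ(f)`, and the condition is
`h . f^* h ≤ h . h + κ(λ(f))`. Lattices over the integers of totally real fields, with a form which is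
negative definite at all places except one, are included (use the trace form).

Let `D` be the set of all these spectral radii, for all `n`, `S` and `v`.
(1) The set `D` has bounded companions: for every `B` the elements of `D` below `B` are Mahler
measures of polynomials having a coprime companion of bounded height.
(2) Hence the closure of the monoid generated by `D` and by any other class with bounded companions
consists of Mahler measures of integer polynomials in several variables, it has a gap above `1`, and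
below every bound it has finite Cantor-Bendixson rank.
(3) Every element of the closure of `D`, except `1`, is a Pisot number or a Salem number.

Proof. Let `r = A v - v` (if the eigenvalue of absolute value `x > 1` is negative, `r = A v + v`). For
the operator `T = A + A⁻¹` all coefficients of `-(r, r)` in the decomposition in eigenvectors of
`T` are nonnegative, including the one of the eigenvalue `±(x + 1/x)`: the two fixed points
`u`, `u'` of `A` on the boundary satisfy `(v, u) (v, u') > 0`, since an integer vector is not an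
eigenvector, hence `(r, u) (r, u') = (2 - x - 1/x) (v, u) (v, u') < 0`. The sum of these coefficients is
`-(r, r) = 2 |(v, A v)| - 2 (v, v) ≤ 2 κ(x)`, and the numbers `-(r, T^i r)` are integers. Now proceed as
in `HyperbolicReflectionGroups.lean`: the resolvent of `T` gives a coprime pair of bounded height
(`HR/Core.lean`), and (3) follows from a study of the limits of the rational functions with the
coefficients `-(r, U_i(T) r)`, where `U_i` are the Chebyshev polynomials (`HR/Lim.lean`,
`HR/Alg.lean`).
-/

set_option autoImplicit false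

namespace Pool.Agent.Results.MP_6d22ea_nt.SmallDisplacement

open MeasureTheory Polynomial

noncomputable section

/-- Value of an integer polynomial in `k` variables at the torus point
`(exp (2 π i t_1), …, exp (2 π i t_k))`. -/
def value {k : ℕ} (F : MvPolynomial (Fin k) ℤ) (t : Fin k → ℝ) : ℂ :=
  MvPolynomial.eval
    (fun j : Fin k => Complex.exp (2 * (Real.pi : ℂ) * Complex.I * ((t j : ℝ) : ℂ)))
    (MvPolynomial.map (Int.castRingHom ℂ) F)

/-- The Mahler measure of an integer polynomial in `k` variables. -/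
def mahler {k : ℕ} (F : MvPolynomial (Fin k) ℤ) : ℝ :=
  Real.exp (∫ t in Set.Icc (0 : Fin k → ℝ) 1, Real.log ‖value F t‖)

/-- The integral of `log max(|F|, |G|)` over the torus. -/
def pairHeight {k : ℕ} (F G : MvPolynomial (Fin k) ℤ) : ℝ :=
  ∫ t in Set.Icc (0 : Fin k → ℝ) 1, Real.log (max ‖value F t‖ ‖value G t‖)

/-- The set of the Mahler measures of the nonzero integer polynomials in any number of variables. -/
def allMeasures : Set ℝ :=
  {x : ℝ | ∃ k : ℕ, 1 ≤ k ∧ ∃ F : MvPolynomial (Fin k) ℤ, F ≠ 0 ∧ x = mahler F}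

/-- The Mahler measures of the nonzero polynomials `F` having a coprime companion `G ≠ 0` with
`∫ log max(|F|, |G|) ≤ K`. -/
def L (K : ℝ) : Set ℝ :=
  {x : ℝ | ∃ k : ℕ, 1 ≤ k ∧ ∃ F G : MvPolynomial (Fin k) ℤ, F ≠ 0 ∧ G ≠ 0 ∧ IsRelPrime F G ∧
    pairHeight F G ≤ K ∧ x = mahler F}

/-- For every `B` some `L K` contains all elements of `T` below `B`. -/
def BoundedCompanions (T : Set ℝ) : Prop := ∀ B : ℝ, ∃ K : ℝ, T ∩ Set.Iio B ⊆ L K

/-- The form `(x, y) = xᵗ S y` on `ℝ ^ n` of an integer matrix `S`. -/
def form {n : ℕ} (S : Matrix (Fin n) (Fin n) ℤ) (x y : Fin n → ℝ) : ℝ :=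
  x ⬝ᵥ (S.map (fun a : ℤ => (a : ℝ))).mulVec y

/-- `S` is symmetric, of signature `(1, n - 1)`: the form is negative definite on the orthogonal
complement of a vector `p` with `(p, p) > 0`. -/
def IsHyperbolic {n : ℕ} (S : Matrix (Fin n) (Fin n) ℤ) : Prop :=
  S.IsSymm ∧ ∃ p : Fin n → ℝ, 0 < form S p p ∧ ∀ y, y ≠ 0 → form S p y = 0 → form S y y < 0

/-- `x` is the spectral radius of the integer matrix `A`: the largest absolute value of a complex
eigenvalue. -/
def IsSpectralRadius {n : ℕ} (A : Matrix (Fin n) (Fin n) ℤ) (x : ℝ) : Prop :=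
  (∃ z : ℂ, (A.map (Int.castRingHom ℂ)).charpoly.IsRoot z ∧ ‖z‖ = x) ∧
    ∀ z : ℂ, (A.map (Int.castRingHom ℂ)).charpoly.IsRoot z → ‖z‖ ≤ x

/-- The spectral radii `x` of the isometries `A` of hyperbolic integral forms, of any rank, for which
some integer vector `v` satisfies `|(v, A v)| ≤ (v, v) + κ(x)` and either `v ≠ 0` and `(v, v) ≥ 0`, or
`(v, A ^ (2 m) v) > |(v, v)|` for some `m`. -/
def displacementRadii (κ : ℝ → ℝ) : Set ℝ :=
  {x : ℝ | ∃ (n : ℕ) (S A : Matrix (Fin n) (Fin n) ℤ), IsHyperbolic S ∧
    A.transpose * S * A = S ∧ IsSpectralRadius A x ∧ ∃ v : Fin n → ℤ,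
      ((v ≠ 0 ∧ 0 ≤ v ⬝ᵥ S.mulVec v) ∨
        ∃ m : ℕ, |v ⬝ᵥ S.mulVec v| < v ⬝ᵥ S.mulVec ((A ^ (2 * m)).mulVec v)) ∧
      |((v ⬝ᵥ S.mulVec (A.mulVec v) : ℤ) : ℝ)| ≤ ((v ⬝ᵥ S.mulVec v : ℤ) : ℝ) + κ x}

/-- `x > 1` is an algebraic integer all of whose other conjugates lie in the closed unit disc, that
is, a Pisot number or a Salem number. -/
def IsPisotOrSalem (x : ℝ) : Prop :=
  1 < x ∧ IsIntegral ℤ x ∧ ∀ y : ℂ, aeval y (minpoly ℚ x) = 0 → y = x ∨ ‖y‖ ≤ 1

theorem sub_Kl (κ : ℝ → ℝ) :
    displacementRadii κ ⊆ Pool.Agent.V5helper2.HR.Kl (fun x => 2 * κ x) ∪ {1} := by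
  rintro x ⟨n, S, A, ⟨hsym, p, hp, hneg⟩, hA, hx, v, hv, hd⟩
  have hform : ∀ y z, Pool.Agent.V5helper2.HR.bf (Pool.Agent.V5helper2.HR.rm S) y z = form S y z := by
    intro y z
    rw [Pool.Agent.V5helper2.HR.bf_apply]
    rfl
  have hlor : Pool.Agent.V5helper2.HR.Lor
      (Pool.Agent.V5helper2.HR.bf (Pool.Agent.V5helper2.HR.rm S)) := by
    refine ⟨fun y z => ?_, p, by rw [hform]; exact hp, fun y hy h1 => ?_⟩
    · rw [Pool.Agent.V5helper2.HR.bf_apply, Pool.Agent.V5helper2.HR.bf_apply,
        Matrix.dotProduct_mulVec, dotProduct_comm, ← Matrix.mulVec_transpose]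
      have h2 : (Pool.Agent.V5helper2.HR.rm S).transpose = Pool.Agent.V5helper2.HR.rm S := by
        unfold Pool.Agent.V5helper2.HR.rm
        rw [← Matrix.transpose_map, hsym.eq]
      rw [h2]
    · rw [hform] at h1 ⊢
      exact hneg y hy h1
  exact Pool.Agent.V5helper2.HR.disp_mem hlor κ hA hx hv hd

theorem BC_disp (κ : ℝ → ℝ) (hκ : Monotone κ) :
    Pool.Agent.TH845.KN.BC (displacementRadii κ) := by
  intro B
  obtain ⟨K, hK⟩ := Pool.Agent.V5helper2.HR.BC_Kl (fun x => 2 * κ x)
    (fun a b hab => mul_le_mul_of_nonneg_left (hκ hab) (by norm_num)) B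
  exact ⟨K, fun x hx => hK ⟨sub_Kl κ hx.1, hx.2⟩⟩

theorem result (κ : ℝ → ℝ) (hκ : Monotone κ) :
    -- (1) bounded companions
    BoundedCompanions (displacementRadii κ) ∧
    -- (2) the monoid generated by this class and any other class with bounded companions
    (∀ T : Set ℝ, BoundedCompanions T → ∃ M : Submonoid ℝ,
      M = Submonoid.closure (T ∪ displacementRadii κ) ∧
      BoundedCompanions (M : Set ℝ) ∧ closure (M : Set ℝ) ⊆ allMeasures ∧
      (∃ δ : ℝ, 1 < δ ∧ ∀ x ∈ M, x = 1 ∨ δ ≤ x) ∧
      ∀ B : ℝ, ∃ s : ℕ, ∀ x ∈ derivedSet^[s] (M : Set ℝ), B ≤ x) ∧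
    -- (3) the closure consists of `1`, Pisot numbers and Salem numbers
    ∀ x ∈ closure (displacementRadii κ), x = 1 ∨ IsPisotOrSalem x := by
  have b3 := BC_disp κ hκ
  refine ⟨b3, ?_, ?_⟩
  · intro T hT
    have h1 : Pool.Agent.TH845.KN.BC
        ((Submonoid.closure (T ∪ displacementRadii κ) : Submonoid ℝ) : Set ℝ) :=
      Pool.Agent.TH845.KN.BC_monoid (Pool.Agent.TH845.KN.BC.union hT b3)
    obtain ⟨h2, h3⟩ := Pool.Agent.W242.IM.closure_of_LL _ h1
    exact ⟨_, rfl, h1, h2, Pool.Agent.TH845.KN.gap_BC h1, h3⟩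
  · intro x hx
    have h1 : x ∈ closure (Pool.Agent.V5helper2.HR.Kl (fun x => 2 * κ x) ∪ {1}) :=
      closure_mono (sub_Kl κ) hx
    rw [closure_union, closure_singleton] at h1
    rcases h1 with h1 | h1
    · have h2 : closure (Pool.Agent.V5helper2.HR.Kl (fun x => 2 * κ x)) ⊆ Set.Ici 1 := by
        refine closure_minimal (fun y hy => ?_) isClosed_Ici
        exact le_of_lt hy.1
      rcases (show (1 : ℝ) ≤ x from h2 h1).eq_or_lt with h3 | h3
      · exact Or.inl h3.symm
      · have h4 := Pool.Agent.V5helper2.HR.Kl_limit (κ := fun x => 2 * κ x)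
          (fun a b hab => mul_le_mul_of_nonneg_left (hκ hab) (by norm_num)) h1 h3
        exact Or.inr ⟨h3, h4.integral h3, h4.conj h3⟩
    · exact Or.inl h1

end

end Pool.Agent.Results.MP_6d22ea_nt.SmallDisplacement
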